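import Pool.Agent.Results.MP_c70ddc_lc.NewTukeyType

/-!
# The four-way classification implies a regularity property which ZFC does not prove

If `KB X` is Tukey equivalent to one of `{0}`, `ℕ^ℕ`, `K(ℚ)`, `[𝔠]^{<ω}` for every separable Banach
space `X`, then coanalytic sets of reals of cardinality `ℵ₁` exist only under the continuum
hypothesis. The conclusion fails in the extension of the constructible universe by `ℵ₂` Cohen
reals, so that the classification is not provable in ZFC.
-/

open Set Filter Topology

namespace Pool.Agent.Results.MP_c70ddc_lc.ClassificationUnprovable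

open Pool.Agent.Helper639.Tk

/-- If for every separable Banach space `X` the poset `KB X` is Tukey equivalent to one of `{0}`,
`ℕ^ℕ`, `K(ℚ)`, `[𝔠]^{<ω}`, then `𝔠 = ℵ₁` as soon as there is a coanalytic set of reals of
cardinality `ℵ₁`. -/
theorem result
    (classification : ∀ (X : Type) [NormedAddCommGroup X] [NormedSpace ℝ X] [CompleteSpace X]
      [TopologicalSpace.SeparableSpace X],
      TukeyEquiv (KB X) Unit ∨ TukeyEquiv (KB X) (ℕ → ℕ) ∨
        TukeyEquiv (KB X) (TopologicalSpace.Compacts ℚ) ∨ TukeyEquiv (KB X) (Finset ℝ))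
    (C : Set (ℕ → Bool)) (hC : MeasureTheory.AnalyticSet Cᶜ)
    (h1 : Cardinal.mk C = Cardinal.aleph 1) : Cardinal.continuum.{0} = Cardinal.aleph 1 := by
  by_contra hne
  have h2 : Cardinal.aleph 1 < Cardinal.continuum.{0} :=
    lt_of_le_of_ne Cardinal.aleph_one_le_continuum (Ne.symm hne)
  obtain ⟨X, i1, i2, i3, i4, -, n1, n2, n3, n4⟩ :=
    NewTukeyType.result C hC h1 h2
  rcases classification X with h | h | h | h
  · exact n1 h
  · exact n2 h
  · exact n3 h
  · exact n4 h

end Pool.Agent.Results.MP_c70ddc_lc.ClassificationUnprovable
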