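import Pool.Agent.Helper639.Tk.Separable
import Pool.Agent.Helper639.Tk.TukeyType
import Pool.Agent.Helper639.Tk.NotLe1
import Pool.Agent.Helper639.Tk.NotLe2
import Pool.Agent.Helper639.Tk.CompQ

/-!
# A new Tukey type of the weakly compact subsets of the unit ball of a separable Banach space

If there is a coanalytic set `C` of reals with `|C| = ℵ₁ < 𝔠`, then there is a separable Banach
space `X` such that the family `KB X` of the weakly compact subsets of the closed unit ball of `X`
is Tukey equivalent to `([C]^{<ω})^ℕ`, and this is none of `{0}`, `ℕ^ℕ`, `K(ℚ)`, `[𝔠]^{<ω}`.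
The space is a Tsirelson type space on the binary tree; its admissible sets are defined from a
continuous surjection of the Baire space onto the complement of `C`.
-/

open Set Filter Topology

namespace Pool.Agent.Helper639.Tk

theorem TukeyLE.trans {P Q R : Type*} [Preorder P] [Preorder Q] [Preorder R]
    (h1 : TukeyLE P Q) (h2 : TukeyLE Q R) : TukeyLE P R := by
  obtain ⟨f, hf⟩ := h1
  obtain ⟨g, hg⟩ := h2
  refine ⟨g ∘ f, fun A hA => ?_⟩
  rw [Set.image_comp]
  exact hg _ (hf _ hA)

end Pool.Agent.Helper639.Tk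

namespace Pool.Agent.Results.MP_c70ddc_lc.NewTukeyType

open Pool.Agent.Helper639.Tk

/-- If `C` is a coanalytic subset of the Cantor space of cardinality `ℵ₁ < 𝔠`, then there is a
separable Banach space `X` such that the weakly compact subsets of its unit ball, ordered by
inclusion, are Tukey equivalent to `([C]^{<ω})^ℕ` and to none of `{0}`, `ℕ^ℕ`, `K(ℚ)`,
`[𝔠]^{<ω}`. -/
theorem result (C : Set (ℕ → Bool)) (hC : MeasureTheory.AnalyticSet Cᶜ)
    (h1 : Cardinal.mk C = Cardinal.aleph 1) (h2 : Cardinal.aleph 1 < Cardinal.continuum.{0}) :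
    ∃ (X : Type) (_ : NormedAddCommGroup X) (_ : NormedSpace ℝ X),
      CompleteSpace X ∧ TopologicalSpace.SeparableSpace X ∧
      TukeyEquiv (KB X) (ℕ → Finset C) ∧
      ¬ TukeyEquiv (KB X) Unit ∧
      ¬ TukeyEquiv (KB X) (ℕ → ℕ) ∧
      ¬ TukeyEquiv (KB X) (TopologicalSpace.Compacts ℚ) ∧
      ¬ TukeyEquiv (KB X) (Finset ℝ) := by
  have hunc : Uncountable C := by
    rw [← Cardinal.aleph0_lt_mk_iff, h1, ← Cardinal.aleph_zero]
    exact Cardinal.aleph_lt_aleph.2 zero_lt_one
  have hφ : ∃ φ : (ℕ → ℕ) → (ℕ → Bool), Continuous φ ∧ Set.range φ = Cᶜ := by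
    rw [MeasureTheory.AnalyticSet] at hC
    rcases hC with h | h
    · exfalso
      have h3 : C = Set.univ := by
        rw [← compl_compl C, h, Set.compl_empty]
      rw [h3, Cardinal.mk_univ] at h1
      have h4 : Cardinal.mk (ℕ → Bool) = Cardinal.continuum := by
        simp
      rw [h4] at h1
      exact h2.ne h1.symm
    · exact h
  obtain ⟨φ, hφc, hφr⟩ := hφ
  have hCe : C = (Set.range φ)ᶜ := by rw [hφr, compl_compl]
  subst hCe
  have hinf : ((Set.range φ)ᶜ : Set (ℕ → Bool)).Infinite := by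
    intro hf
    have := hf.countable
    exact (Set.countable_coe_iff.not.1 (not_countable_iff.2 hunc)) this
  have key := tukey_type hφc (h1 ▸ h2) hinf
  refine ⟨Pool.Agent.Helper639.Tk.X φ, inferInstance, inferInstance, inferInstance, separable_X, key,
    ?_, ?_, ?_, ?_⟩
  · rintro ⟨h3, -⟩
    refine not_tukeyLE_of_bdd (fun f => ⟨Set.univ, Set.infinite_univ, ?_⟩) (key.2.trans h3)
    exact ⟨(), fun _ _ => le_rfl⟩
  · rintro ⟨h3, -⟩
    exact not_tukeyLE_of_bdd (fun f => infinite_bdd_nat f) (key.2.trans h3)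
  · rintro ⟨h3, -⟩
    exact not_tukeyLE_of_bdd (fun f => infinite_bdd_compacts f) (key.2.trans h3)
  · rintro ⟨-, h3⟩
    exact not_finset_tukeyLE h1 h2 (h3.trans key.1)

end Pool.Agent.Results.MP_c70ddc_lc.NewTukeyType
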